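import Pool.Agent.H80.JE.Targets

set_option autoImplicit false

namespace Pool.Agent.H41.JE

open Finset Filter Topology Pool.Agent.H80.JD Pool.Agent.H80.JE

theorem v2 (hKH : T_KH) : T_V2 := by
  intro m
  have h := (hKH m (fun _ => (1 : ℝ))).1
  have e : ∀ v : Fin m → Bool, ((csum v : ℤ) : ℝ) = lin (fun _ => (1 : ℝ)) v := by
    intro v
    simp [csum, lin]
  simp only [e]
  rw [h]
  simp [mul_comm]

end Pool.Agent.H41.JE
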